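import Pool.Agent.Helper49.Stx.Line

/-!
# MP_65a63f_X, module Y4: large shifts reduce to shift zero
-/

set_option autoImplicit false

namespace Stx

open Finset MeasureTheory Pool.Agent.Helper64.AS

namespace Samp49

/-- Translation of the frequencies. -/
def tr {r : ℕ} (n₀ : ℤ) (β : Fin r → ℤ) (η : ℤ × (Fin r → ℤ)) : ℤ × (Fin r → ℤ) :=
  (n₀ + η.1, fun l => β l + η.2 l)

open Classical in
/-- Translated coefficients. -/
noncomputable def ta {r : ℕ} (S : Finset (ℤ × (Fin r → ℤ))) (n₀ : ℤ) (β : Fin r → ℤ)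
    (a : ℤ × (Fin r → ℤ) → ℂ) (η : ℤ × (Fin r → ℤ)) : ℂ :=
  if tr n₀ β η ∈ S then a (tr n₀ β η) else 0

lemma mem_box {r : ℕ} (b : Fin (r + 1) → ℝ) (N : ℝ) (ξ : ℤ × (Fin r → ℤ)) :
    ξ ∈ box r b N ↔ (⌈b 0⌉ ≤ ξ.1 ∧ ξ.1 ≤ ⌊b 0 + N⌋) ∧
      ∀ l, ⌈b l.succ⌉ ≤ ξ.2 l ∧ ξ.2 l ≤ ⌊b l.succ + N⌋ := by
  unfold Pool.Agent.Helper64.AS.box
  simp [Finset.mem_product, Fintype.mem_piFinset, Finset.mem_Icc]

lemma sum_tr {r : ℕ} (b : Fin (r + 1) → ℝ) (N : ℝ) {E : Type*} [AddCommMonoid E]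
    (g : ℤ × (Fin r → ℤ) → ℤ × (Fin r → ℤ) → E) :
    ∑ ξ ∈ box r b N, g ξ (ξ.1 - ⌈b 0⌉, fun l => ξ.2 l - ⌈b l.succ⌉) =
      ∑ η ∈ (box r (0 : Fin (r + 1) → ℝ) N).filter
        (fun η => tr ⌈b 0⌉ (fun l => ⌈b l.succ⌉) η ∈ box r b N),
        g (tr ⌈b 0⌉ (fun l => ⌈b l.succ⌉) η) η := by
  apply Finset.sum_bij' (fun ξ _ => (ξ.1 - ⌈b 0⌉, fun l => ξ.2 l - ⌈b l.succ⌉))
    (fun η _ => tr ⌈b 0⌉ (fun l => ⌈b l.succ⌉) η)
  · intro ξ hξ
    rw [Finset.mem_filter]
    have h1 : tr ⌈b 0⌉ (fun l => ⌈b l.succ⌉) (ξ.1 - ⌈b 0⌉, fun l => ξ.2 l - ⌈b l.succ⌉) = ξ := by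
      unfold tr
      ext l
      · simp
      · simp
    rw [h1]
    refine ⟨?_, hξ⟩
    rw [mem_box] at hξ ⊢
    obtain ⟨⟨h2, h3⟩, h4⟩ := hξ
    simp only [Pi.zero_apply, Int.ceil_zero, zero_add]
    refine ⟨⟨by omega, ?_⟩, fun l => ⟨by have := (h4 l).1; omega, ?_⟩⟩
    · rw [Int.le_floor] at h3 ⊢
      push_cast
      have := Int.le_ceil (b 0)
      linarith
    · have h5 := (h4 l).2
      rw [Int.le_floor] at h5 ⊢
      push_cast
      have := Int.le_ceil (b l.succ)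
      linarith
  · intro η hη
    exact (Finset.mem_filter.mp hη).2
  · intro ξ _
    unfold tr
    ext l
    · simp
    · simp
  · intro η _
    unfold tr
    ext l
    · simp
    · simp
  · intro ξ _
    have h1 : tr ⌈b 0⌉ (fun l => ⌈b l.succ⌉) (ξ.1 - ⌈b 0⌉, fun l => ξ.2 l - ⌈b l.succ⌉) = ξ := by
      unfold tr
      ext l
      · simp
      · simp
    rw [h1]

lemma sum_ta {r : ℕ} (b : Fin (r + 1) → ℝ) (N : ℝ) (a : ℤ × (Fin r → ℤ) → ℂ) :
    ∑ η ∈ box r (0 : Fin (r + 1) → ℝ) N,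
      ‖ta (box r b N) ⌈b 0⌉ (fun l => ⌈b l.succ⌉) a η‖ ^ 2 = ∑ ξ ∈ box r b N, ‖a ξ‖ ^ 2 := by
  have h := sum_tr b N (fun ξ _ => ‖a ξ‖ ^ 2)
  rw [h, Finset.sum_filter]
  apply Finset.sum_congr rfl
  intro η _
  unfold ta
  split_ifs with h1
  · rfl
  · simp

/-- The modulus of the sum is the modulus of the translated sum. -/
lemma norm_FF_tr {r : ℕ} (b : Fin (r + 1) → ℝ) (N : ℝ) (a : ℤ × (Fin r → ℤ) → ℂ) (t : ℝ)
    (x : Fin r → ℝ) : ‖FF r (box r b N) a t x‖ =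
      ‖Hs (box r (0 : Fin (r + 1) → ℝ) N)
        (ta (box r b N) ⌈b 0⌉ (fun l => ⌈b l.succ⌉) a) t (2 * ⌈b 0⌉ * t)
        (x + fun l => -(2 * t * ⌈b l.succ⌉))‖ := by
  set n₀ := ⌈b 0⌉ with hn₀
  set β : Fin r → ℤ := fun l => ⌈b l.succ⌉ with hβ
  have h1 : FF r (box r b N) a t x =
      Complex.exp (((∑ l, x l * β l - t * ((n₀ : ℝ) ^ 2 + ∑ l, (β l : ℝ) ^ 2) : ℝ) : ℂ) *
        Complex.I) * Hs (box r (0 : Fin (r + 1) → ℝ) N) (ta (box r b N) n₀ β a) t (2 * n₀ * t)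
        (x + fun l => -(2 * t * β l)) := by
    have h := sum_tr b N (fun ξ _ => a ξ * Complex.exp
      (((∑ l, x l * ξ.2 l - t * ((ξ.1 : ℝ) ^ 2 + ∑ l, (ξ.2 l : ℝ) ^ 2) : ℝ) : ℂ) * Complex.I))
    unfold FF
    rw [h, Finset.sum_filter]
    unfold Hs
    rw [Finset.mul_sum]
    apply Finset.sum_congr rfl
    intro η _
    unfold ta
    split_ifs with h2
    · rw [mul_left_comm, ← Complex.exp_add, ← add_mul, ← Complex.ofReal_add]
      congr 4
      unfold tr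
      have e1 : ∑ l, x l * ((β l + η.2 l : ℤ) : ℝ) = ∑ l, x l * β l + ∑ l, x l * η.2 l := by
        rw [← Finset.sum_add_distrib]
        apply Finset.sum_congr rfl
        intro l _
        push_cast
        ring
      have e2 : ∑ l, ((β l + η.2 l : ℤ) : ℝ) ^ 2 = ∑ l, (β l : ℝ) ^ 2 +
          2 * ∑ l, (β l : ℝ) * η.2 l + ∑ l, (η.2 l : ℝ) ^ 2 := by
        rw [Finset.mul_sum, ← Finset.sum_add_distrib, ← Finset.sum_add_distrib]
        apply Finset.sum_congr rfl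
        intro l _
        push_cast
        ring
      have e3 : ∑ l, (x + fun l => -(2 * t * (β l : ℝ))) l * (η.2 l : ℝ) =
          ∑ l, x l * η.2 l - 2 * t * ∑ l, (β l : ℝ) * η.2 l := by
        rw [Finset.mul_sum, ← Finset.sum_sub_distrib]
        apply Finset.sum_congr rfl
        intro l _
        simp only [Pi.add_apply]
        ring
      simp only
      rw [e1, e2, e3]
      push_cast
      ring
    · simp
  rw [h1, norm_mul, Complex.norm_exp_ofReal_mul_I, one_mul]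

/-- The abstract part of the argument. -/
lemma large_abs {r : ℕ} (H : ℝ → ℝ → (Fin r → ℝ) → ℝ)
    (hHc : Continuous (fun z : ℝ × ℝ × (Fin r → ℝ) => H z.1 z.2.1 z.2.2))
    (hH0 : ∀ t u x, 0 ≤ H t u x)
    (hper : ∀ (t u : ℝ) (x : Fin r → ℝ) (k : Fin r → ℤ),
      H t u (fun l => x l + 2 * Real.pi * k l) = H t u x)
    (c : ℝ) (β : Fin r → ℝ) (C B v w : ℝ) (hC : 0 ≤ C) (hc : c = v * w)
    (hline : ∀ x, ∫ t in (0 : ℝ)..(2 * Real.pi), H t (v * (w * t)) x ≤
      C * ∫ u in (0 : ℝ)..(2 * Real.pi), ∫ t in (0 : ℝ)..(2 * Real.pi), H t (v * u) x)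
    (hB : ∀ u : ℝ, ∫ z in cube r, H z.1 (v * u) z.2 ≤ B) :
    ∫ z in cube r, H z.1 (c * z.1) (z.2 + fun l => -(2 * z.1 * β l)) ≤
      C * (2 * Real.pi * B) := by
  have hHc3 : ∀ {Y : Type} [TopologicalSpace Y] (f g : Y → ℝ) (h : Y → Fin r → ℝ), Continuous f →
      Continuous g → Continuous h → Continuous (fun y => H (f y) (g y) (h y)) :=
    fun f g h hf hg hh => hHc.comp (hf.prodMk (hg.prodMk hh))
  have hXc : IsCompact (Set.Icc (0 : Fin r → ℝ) (fun _ => 2 * Real.pi)) := isCompact_Icc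
  have hTc : IsCompact (Set.Icc (0 : ℝ) (2 * Real.pi)) := isCompact_Icc
  generalize hX : Set.Icc (0 : Fin r → ℝ) (fun _ => 2 * Real.pi) = X at hXc
  have hXm : MeasurableSet X := by
    rw [← hX]
    exact measurableSet_Icc
  have hpi : (0 : ℝ) ≤ 2 * Real.pi := by positivity
  have hIcc : ∀ f : ℝ → ℝ, ∫ t in Set.Icc (0 : ℝ) (2 * Real.pi), f t =
      ∫ t in (0 : ℝ)..(2 * Real.pi), f t := by
    intro f
    rw [integral_Icc_eq_integral_Ioc, ← intervalIntegral.integral_of_le hpi]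
  have hvol : volume.real (Set.Icc (0 : ℝ) (2 * Real.pi)) = 2 * Real.pi := by
    rw [Real.volume_real_Icc_of_le hpi, sub_zero]
  have hfin : volume (Set.Icc (0 : ℝ) (2 * Real.pi)) ≠ ⊤ := by
    rw [Real.volume_Icc]
    exact ENNReal.ofReal_ne_top
  have hcube : cube r = Set.Icc (0 : ℝ) (2 * Real.pi) ×ˢ X := by
    rw [← hX]
    rfl
  generalize hT : Set.Icc (0 : ℝ) (2 * Real.pi) = T at hTc hIcc hvol hfin hcube
  -- first step: remove the space shift
  have step1 : ∫ z in cube r, H z.1 (c * z.1) (z.2 + fun l => -(2 * z.1 * β l)) =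
      ∫ t in T, ∫ x in X, H t (c * t) x := by
    rw [hcube, Measure.volume_eq_prod, setIntegral_prod]
    · congr 1
      ext t
      simp only
      rw [← hX]
      exact box_shift (fun x => H t (c * t) x) (fun x k => hper _ _ x k)
        (fun l => -(2 * t * β l))
    · apply ContinuousOn.integrableOn_compact (hTc.prod hXc)
      apply Continuous.continuousOn
      apply hHc3 _ _ _ continuous_fst (by fun_prop)
      apply continuous_snd.add
      apply continuous_pi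
      intro l
      fun_prop
  -- second step: exchange, and the line bound
  have step2 : ∫ t in T, ∫ x in X, H t (c * t) x = ∫ x in X, ∫ t in T, H t (v * (w * t)) x := by
    rw [integral_integral_swap]
    · simp_rw [hc, mul_assoc]
    · have h2 : Integrable (fun z : ℝ × (Fin r → ℝ) => H z.1 (c * z.1) z.2)
          ((volume.restrict T).prod (volume.restrict X)) := by
        rw [Measure.prod_restrict]
        apply ContinuousOn.integrableOn_compact (hTc.prod hXc)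
        apply Continuous.continuousOn
        exact hHc3 _ _ _ continuous_fst (by fun_prop) continuous_snd
      exact h2
  have step3 : ∫ x in X, ∫ t in T, H t (v * (w * t)) x ≤
      ∫ x in X, C * ∫ u in T, ∫ t in T, H t (v * u) x := by
    apply setIntegral_mono_on
    · apply ContinuousOn.integrableOn_compact hXc
      apply Continuous.continuousOn
      simp_rw [hIcc]
      apply intervalIntegral.continuous_parametric_intervalIntegral_of_continuous'
      exact hHc3 _ _ _ continuous_snd (by fun_prop) continuous_fst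
    · apply ContinuousOn.integrableOn_compact hXc
      apply Continuous.continuousOn
      apply continuous_const.mul
      simp_rw [hIcc]
      apply intervalIntegral.continuous_parametric_intervalIntegral_of_continuous'
      have h3 : Continuous (fun z : (Fin r → ℝ) × ℝ =>
          ∫ t in (0 : ℝ)..(2 * Real.pi), H t (v * z.2) z.1) := by
        apply intervalIntegral.continuous_parametric_intervalIntegral_of_continuous'
        exact hHc3 _ _ _ continuous_snd (by fun_prop) (by fun_prop)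
      exact h3
    · exact hXm
    · intro x _
      simp_rw [hIcc]
      exact hline x
  have step4 : ∫ x in X, C * ∫ u in T, ∫ t in T, H t (v * u) x =
      C * ∫ u in T, ∫ z in cube r, H z.1 (v * u) z.2 := by
    rw [integral_const_mul]
    congr 1
    rw [integral_integral_swap]
    · congr 1
      ext u
      rw [hcube, Measure.volume_eq_prod, setIntegral_prod]
      · rw [integral_integral_swap]
        have h2 : Integrable (fun z : (Fin r → ℝ) × ℝ => H z.2 (v * u) z.1)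
            ((volume.restrict X).prod (volume.restrict T)) := by
          rw [Measure.prod_restrict]
          apply ContinuousOn.integrableOn_compact (hXc.prod hTc)
          apply Continuous.continuousOn
          exact hHc3 _ _ _ continuous_snd continuous_const continuous_fst
        exact h2
      · apply ContinuousOn.integrableOn_compact (hTc.prod hXc)
        apply Continuous.continuousOn
        exact hHc3 _ _ _ continuous_fst continuous_const continuous_snd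
    · have h2 : Integrable (fun z : (Fin r → ℝ) × ℝ => ∫ t in T, H t (v * z.2) z.1)
          ((volume.restrict X).prod (volume.restrict T)) := by
        rw [Measure.prod_restrict]
        apply ContinuousOn.integrableOn_compact (hXc.prod hTc)
        apply Continuous.continuousOn
        simp_rw [hIcc]
        apply intervalIntegral.continuous_parametric_intervalIntegral_of_continuous'
        exact hHc3 _ _ _ continuous_snd (by fun_prop) (by fun_prop)
      exact h2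
  have step6 : ∫ u in T, ∫ z in cube r, H z.1 (v * u) z.2 ≤ 2 * Real.pi * B := by
    have h1 : ∫ u in T, ∫ z in cube r, H z.1 (v * u) z.2 ≤ ∫ _u in T, B := by
      apply integral_mono_of_nonneg
      · apply Filter.Eventually.of_forall
        intro u
        exact integral_nonneg (fun z => hH0 _ _ _)
      · exact integrableOn_const hfin enorm_ne_top
      · exact Filter.Eventually.of_forall hB
    refine le_trans h1 (le_of_eq ?_)
    rw [setIntegral_const, hvol, smul_eq_mul]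
  rw [step1, step2]
  refine le_trans step3 ?_
  rw [step4]
  exact mul_le_mul_of_nonneg_left step6 hC

/-- Arithmetic of the number of sample points. -/
lemma numbers (r : ℕ) (N b₀ : ℝ) (hN : 1 < N)
    (hb : (((r : ℝ) + 1) / 2 + 1) * N ^ 2 < |b₀|) :
    ∃ (M0 P : ℕ) (s : ℤ), 1 ≤ M0 ∧ M0 ≤ P ∧ 2 * ⌈b₀⌉ = s * P ∧
      (M0 : ℤ) = (r + 1) * ⌊N⌋ ^ 2 := by
  have hfl : (1 : ℤ) ≤ ⌊N⌋ := by
    rw [Int.le_floor]
    push_cast
    exact hN.le
  set n₀ := ⌈b₀⌉ with hn₀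
  have hM0' : ((((r : ℤ) + 1) * ⌊N⌋ ^ 2).toNat : ℤ) = (r + 1) * ⌊N⌋ ^ 2 := by
    rw [Int.toNat_of_nonneg (by positivity)]
  refine ⟨(((r : ℤ) + 1) * ⌊N⌋ ^ 2).toNat, (2 * n₀).natAbs, (if 0 ≤ n₀ then 1 else -1),
    ?_, ?_, ?_, hM0'⟩
  · have : (1 : ℤ) ≤ (((r : ℤ) + 1) * ⌊N⌋ ^ 2).toNat := by
      rw [hM0']
      have h1 : (1 : ℤ) ≤ ⌊N⌋ ^ 2 := by nlinarith
      have h2 : (1 : ℤ) ≤ (r : ℤ) + 1 := by omega
      nlinarith
    exact_mod_cast this
  · have h1 : (((((r : ℤ) + 1) * ⌊N⌋ ^ 2).toNat : ℕ) : ℝ) ≤ ((r : ℝ) + 1) * N ^ 2 := by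
      have h2 : (((((r : ℤ) + 1) * ⌊N⌋ ^ 2).toNat : ℕ) : ℝ) = ((r : ℝ) + 1) * (⌊N⌋ : ℝ) ^ 2 := by
        exact_mod_cast hM0'
      rw [h2]
      apply mul_le_mul_of_nonneg_left _ (by positivity)
      have h3 : (⌊N⌋ : ℝ) ≤ N := Int.floor_le N
      have h4 : (0 : ℝ) ≤ ⌊N⌋ := by exact_mod_cast (by omega : (0 : ℤ) ≤ ⌊N⌋)
      exact pow_le_pow_left₀ h4 h3 2
    have h5 : (((2 * n₀).natAbs : ℕ) : ℝ) = |2 * (n₀ : ℝ)| := by
      rw [Nat.cast_natAbs]
      push_cast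
      rfl
    have h6 : |b₀| - 1 ≤ |(n₀ : ℝ)| := by
      have h7 := Int.le_ceil b₀
      have h8 := Int.ceil_lt_add_one b₀
      rw [← hn₀] at h7 h8
      rcases abs_cases b₀ with ⟨h9, _⟩ | ⟨h9, _⟩ <;>
        rcases abs_cases (n₀ : ℝ) with ⟨h10, _⟩ | ⟨h10, _⟩ <;> linarith
    have h9 : (((((r : ℤ) + 1) * ⌊N⌋ ^ 2).toNat : ℕ) : ℝ) ≤ (((2 * n₀).natAbs : ℕ) : ℝ) := by
      rw [h5, abs_mul, abs_two]
      have h10 : (1 : ℝ) ≤ N ^ 2 := by nlinarith
      nlinarith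
    exact_mod_cast h9
  · split_ifs with h <;> omega

end Samp49

open Samp49

theorem large (r : ℕ) (p : ℝ) (hp : 2 ≤ p) : ∃ K : ℝ, 0 < K ∧ ∃ C : ℝ, 0 < C ∧
    ∀ (N M : ℝ), 1 < N → 0 ≤ M →
    (∀ (b : Fin (r + 1) → ℝ) (a : ℤ × (Fin r → ℤ) → ℂ), |b 0| ≤ K * N ^ 2 →
      ∫ z in cube r, ‖FF r (box r b N) a z.1 z.2‖ ^ p ≤
        M * (∑ ξ ∈ box r b N, ‖a ξ‖ ^ 2) ^ (p / 2)) →
    ∀ (b : Fin (r + 1) → ℝ) (a : ℤ × (Fin r → ℤ) → ℂ),
      ∫ z in cube r, ‖FF r (box r b N) a z.1 z.2‖ ^ p ≤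
        C * M * (∑ ξ ∈ box r b N, ‖a ξ‖ ^ 2) ^ (p / 2) := by
  obtain ⟨C, hC, hline⟩ := line_bound p (by linarith)
  refine ⟨((r : ℝ) + 1) / 2 + 1, by positivity, 1 + 2 * Real.pi * C, by positivity, ?_⟩
  intro N M hN hM hyp b a
  have hpow : 0 ≤ (∑ ξ ∈ box r b N, ‖a ξ‖ ^ 2) ^ (p / 2) := by positivity
  by_cases hb : |b 0| ≤ (((r : ℝ) + 1) / 2 + 1) * N ^ 2
  · refine le_trans (hyp b a hb) ?_
    apply mul_le_mul_of_nonneg_right _ hpow
    have : 0 ≤ 2 * Real.pi * C * M := by positivity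
    linarith
  push Not at hb
  obtain ⟨M0, P, s, hM1, hMP, hsP, hM0'⟩ := numbers r N (b 0) hN hb
  have hS0 : ∀ η ∈ box r (0 : Fin (r + 1) → ℝ) N,
      η.1 ^ 2 + ∑ l, (η.2 l) ^ 2 ≤ (M0 : ℤ) := by
    intro η hη
    rw [mem_box] at hη
    simp only [Pi.zero_apply, Int.ceil_zero, zero_add] at hη
    rw [hM0']
    have h1 : η.1 ^ 2 ≤ ⌊N⌋ ^ 2 := pow_le_pow_left₀ hη.1.1 hη.1.2 2
    have h2 : ∑ l, (η.2 l) ^ 2 ≤ ∑ _l : Fin r, ⌊N⌋ ^ 2 :=
      Finset.sum_le_sum (fun l _ => pow_le_pow_left₀ (hη.2 l).1 (hη.2 l).2 2)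
    rw [Finset.sum_const, Finset.card_univ, Fintype.card_fin, nsmul_eq_mul] at h2
    linarith
  have hmain := large_abs
    (fun t u x => ‖Hs (box r (0 : Fin (r + 1) → ℝ) N)
      (ta (box r b N) ⌈b 0⌉ (fun l => ⌈b l.succ⌉) a) t u x‖ ^ p)
    ((continuous_Hs _ _).norm.rpow_const (fun z => Or.inr (by linarith)))
    (fun t u x => by positivity)
    (fun t u x k => by rw [Hs_shift_x])
    (2 * ⌈b 0⌉) (fun l => (⌈b l.succ⌉ : ℝ)) C
    (M * (∑ ξ ∈ box r b N, ‖a ξ‖ ^ 2) ^ (p / 2)) s P hC.le (by exact_mod_cast hsP)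
    (fun x => hline r _ _ M0 P s x hM1 hMP hS0)
    (fun u => by
      have h1 := hyp (0 : Fin (r + 1) → ℝ)
        (fun η => ta (box r b N) ⌈b 0⌉ (fun l => ⌈b l.succ⌉) a η *
          Complex.exp (((-((s : ℝ) * u) * η.1 : ℝ) : ℂ) * Complex.I)) (by
          simp only [Pi.zero_apply, abs_zero]
          positivity)
      have h2 : ∑ η ∈ box r (0 : Fin (r + 1) → ℝ) N,
          ‖ta (box r b N) ⌈b 0⌉ (fun l => ⌈b l.succ⌉) a η *
            Complex.exp (((-((s : ℝ) * u) * η.1 : ℝ) : ℂ) * Complex.I)‖ ^ 2 =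
          ∑ ξ ∈ box r b N, ‖a ξ‖ ^ 2 := by
        rw [← sum_ta b N a]
        apply Finset.sum_congr rfl
        intro η _
        rw [norm_mul, Complex.norm_exp_ofReal_mul_I, mul_one]
      rw [h2] at h1
      simp only [FF_phase] at h1
      exact h1)
  have h1 : ∀ z : ℝ × (Fin r → ℝ), ‖FF r (box r b N) a z.1 z.2‖ ^ p =
      ‖Hs (box r (0 : Fin (r + 1) → ℝ) N)
        (ta (box r b N) ⌈b 0⌉ (fun l => ⌈b l.succ⌉) a) z.1 (2 * ⌈b 0⌉ * z.1)
        (z.2 + fun l => -(2 * z.1 * ⌈b l.succ⌉))‖ ^ p := by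
    intro z
    rw [norm_FF_tr]
  simp_rw [h1]
  refine le_trans hmain ?_
  have : 0 ≤ M * (∑ ξ ∈ box r b N, ‖a ξ‖ ^ 2) ^ (p / 2) := by positivity
  nlinarith

end Stx
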