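import Pool.Agent.Helper95.AS.fej
import Pool.Agent.Helper70.AS.space

/-!
# MP_65a63f_X, part of module Y4: sampling of trigonometric polynomials
-/

set_option autoImplicit false

namespace Stx

open Finset MeasureTheory Pool.Agent.Helper64.AS

namespace Samp49

open Pool.Agent.Helper95.AS

lemma count_nat (L n : ℕ) (hn : n ≤ L) :
    ∑ i ∈ range L, ∑ j ∈ range L, (if (n : ℤ) = (i : ℤ) - j then (1 : ℝ) else 0) = L - n := by
  rw [Finset.sum_comm]
  have h1 : ∀ j ∈ range L, ∑ i ∈ range L, (if (n : ℤ) = (i : ℤ) - j then (1 : ℝ) else 0) =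
      if j < L - n then 1 else 0 := by
    intro j _
    by_cases h : j < L - n
    · rw [if_pos h, Finset.sum_eq_single (j + n)]
      · rw [if_pos]
        push_cast
        ring
      · intro i _ hi
        rw [if_neg]
        omega
      · intro h2
        exact absurd (Finset.mem_range.mpr (by omega)) h2
    · rw [if_neg h]
      apply Finset.sum_eq_zero
      intro i hi
      rw [Finset.mem_range] at hi
      rw [if_neg]
      omega
  rw [Finset.sum_congr rfl h1, ← Finset.sum_filter]
  have h2 : (range L).filter (fun j => j < L - n) = range (L - n) := by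
    ext j
    simp only [Finset.mem_filter, Finset.mem_range]
    omega
  rw [h2, Finset.sum_const, Finset.card_range, nsmul_eq_mul, mul_one, Nat.cast_sub hn]

lemma count_int (L : ℕ) (k : ℤ) (hk : |k| ≤ L) :
    ∑ i ∈ range L, ∑ j ∈ range L, (if k = (i : ℤ) - j then (1 : ℝ) else 0) = L - |(k : ℝ)| := by
  obtain ⟨n, rfl | rfl⟩ := Int.eq_nat_or_neg k
  · rw [count_nat L n (by simpa using hk)]
    simp
  · rw [Finset.sum_comm]
    have h1 : ∀ i ∈ range L, ∀ j ∈ range L, (if (-(n : ℤ)) = (j : ℤ) - i then (1 : ℝ) else 0) =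
        if (n : ℤ) = (i : ℤ) - j then 1 else 0 := by
      intro i _ j _
      by_cases h : (n : ℤ) = (i : ℤ) - j
      · rw [if_pos h, if_pos (by omega)]
      · rw [if_neg h, if_neg (by omega)]
    rw [Finset.sum_congr rfl (fun i hi => Finset.sum_congr rfl (h1 i hi)),
      count_nat L n (by simpa using hk)]
    simp

/-- Fourier coefficients of the Fejer kernel. -/
lemma fej_coef (L : ℕ) (hL : 1 ≤ L) (k : ℤ) (hk : |k| ≤ L) (t : ℝ) :
    ∫ s in (0 : ℝ)..(2 * Real.pi), ee ((k : ℝ) * (s / (2 * Real.pi))) *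
      ((fej L ((t - s) / (2 * Real.pi)) : ℝ) : ℂ) =
      ((2 * Real.pi * ((L - |(k : ℝ)|) / L) : ℝ) : ℂ) * ee ((k : ℝ) * (t / (2 * Real.pi))) := by
  have hL0 : (0 : ℝ) < L := by exact_mod_cast hL
  have hLc : (L : ℂ) ≠ 0 := by exact_mod_cast hL0.ne'
  have e1 : ∀ s : ℝ, ee ((k : ℝ) * (s / (2 * Real.pi))) *
      ((fej L ((t - s) / (2 * Real.pi)) : ℝ) : ℂ) =
      (L : ℂ)⁻¹ * ∑ i ∈ range L, ∑ j ∈ range L, ee (((i : ℝ) - j) * (t / (2 * Real.pi))) *
        ee (((k - ((i : ℤ) - j) : ℤ) : ℝ) * ((s - 0) / (2 * Real.pi))) := by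
    intro s
    have h := double_sum' L ((t - s) / (2 * Real.pi)) hL
    have h2 : ((fej L ((t - s) / (2 * Real.pi)) : ℝ) : ℂ) = (L : ℂ)⁻¹ *
        ∑ i ∈ range L, ∑ j ∈ range L, ee (((i : ℝ) - j) * ((t - s) / (2 * Real.pi))) := by
      rw [h]
      push_cast
      field_simp
    rw [h2, mul_left_comm]
    congr 1
    rw [Finset.mul_sum]
    apply Finset.sum_congr rfl
    intro i _
    rw [Finset.mul_sum]
    apply Finset.sum_congr rfl
    intro j _
    rw [← ee_add, ← ee_add]
    congr 1
    push_cast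
    ring
  simp_rw [e1]
  rw [intervalIntegral.integral_const_mul, intervalIntegral.integral_finsetSum]
  · have e2 : ∀ i ∈ range L, ∫ s in (0 : ℝ)..(2 * Real.pi),
        ∑ j ∈ range L, ee (((i : ℝ) - j) * (t / (2 * Real.pi))) *
          ee (((k - ((i : ℤ) - j) : ℤ) : ℝ) * ((s - 0) / (2 * Real.pi))) =
        ∑ j ∈ range L, (((if k = (i : ℤ) - j then (1 : ℝ) else 0 : ℝ) : ℂ) *
          (((2 * Real.pi : ℝ) : ℂ) * ee ((k : ℝ) * (t / (2 * Real.pi))))) := by
      intro i _
      rw [intervalIntegral.integral_finsetSum]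
      · apply Finset.sum_congr rfl
        intro j _
        rw [intervalIntegral.integral_const_mul, integral_ee]
        by_cases h : k = (i : ℤ) - j
        · rw [if_pos h, if_pos (by omega)]
          have h3 : ((i : ℝ) - j) = (k : ℝ) := by
            rw [h]
            push_cast
            ring
          rw [h3]
          push_cast
          ring
        · rw [if_neg h, if_neg (by omega)]
          simp
      · intro j _
        apply Continuous.intervalIntegrable
        have := continuous_ee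
        fun_prop
    rw [Finset.sum_congr rfl e2]
    have e3 : ∑ i ∈ range L, ∑ j ∈ range L,
        (((if k = (i : ℤ) - j then (1 : ℝ) else 0 : ℝ) : ℂ) *
          (((2 * Real.pi : ℝ) : ℂ) * ee ((k : ℝ) * (t / (2 * Real.pi))))) =
        ((∑ i ∈ range L, ∑ j ∈ range L, (if k = (i : ℤ) - j then (1 : ℝ) else 0) : ℝ) : ℂ) *
          (((2 * Real.pi : ℝ) : ℂ) * ee ((k : ℝ) * (t / (2 * Real.pi)))) := by
      rw [Complex.ofReal_sum, Finset.sum_mul]
      apply Finset.sum_congr rfl
      intro i _
      rw [Complex.ofReal_sum, Finset.sum_mul]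
    rw [e3, count_int L k hk]
    push_cast
    field_simp
  · intro i _
    apply Continuous.intervalIntegrable
    have := continuous_ee
    fun_prop

/-- Kernel of de la Vallee-Poussin and its majorant. -/
noncomputable def V (M : ℕ) (y : ℝ) : ℝ := 2 * fej (2 * M) y - fej M y

noncomputable def W (M : ℕ) (y : ℝ) : ℝ := 2 * fej (2 * M) y + fej M y

lemma continuous_V (M : ℕ) : Continuous (V M) := by
  unfold V
  have h1 := continuous_fej M
  have h2 := continuous_fej (2 * M)
  fun_prop

lemma continuous_W (M : ℕ) : Continuous (W M) := by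
  unfold W
  have h1 := continuous_fej M
  have h2 := continuous_fej (2 * M)
  fun_prop

lemma W_nonneg (M : ℕ) (y : ℝ) : 0 ≤ W M y := by
  unfold W
  have h1 := fej_nonneg M y
  have h2 := fej_nonneg (2 * M) y
  linarith

lemma abs_V_le (M : ℕ) (y : ℝ) : |V M y| ≤ W M y := by
  unfold V W
  have h1 := fej_nonneg M y
  have h2 := fej_nonneg (2 * M) y
  rw [abs_le]
  constructor <;> linarith

lemma V_coef (M : ℕ) (hM : 1 ≤ M) (k : ℤ) (hk : |k| ≤ M) (t : ℝ) :
    ∫ s in (0 : ℝ)..(2 * Real.pi), ee ((k : ℝ) * (s / (2 * Real.pi))) *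
      ((V M ((t - s) / (2 * Real.pi)) : ℝ) : ℂ) =
      ((2 * Real.pi : ℝ) : ℂ) * ee ((k : ℝ) * (t / (2 * Real.pi))) := by
  have hM0 : (0 : ℝ) < M := by exact_mod_cast hM
  have h1 := fej_coef M hM k hk t
  have h2 := fej_coef (2 * M) (by omega) k (by push_cast; omega) t
  have e1 : ∀ s : ℝ, ee ((k : ℝ) * (s / (2 * Real.pi))) *
      ((V M ((t - s) / (2 * Real.pi)) : ℝ) : ℂ) =
      2 * (ee ((k : ℝ) * (s / (2 * Real.pi))) *
        ((fej (2 * M) ((t - s) / (2 * Real.pi)) : ℝ) : ℂ)) -
      ee ((k : ℝ) * (s / (2 * Real.pi))) * ((fej M ((t - s) / (2 * Real.pi)) : ℝ) : ℂ) := by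
    intro s
    unfold V
    push_cast
    ring
  simp_rw [e1]
  have hc : ∀ L : ℕ, Continuous fun s : ℝ => ee ((k : ℝ) * (s / (2 * Real.pi))) *
        ((fej L ((t - s) / (2 * Real.pi)) : ℝ) : ℂ) := by
    intro L
    have h1 := continuous_fej L
    have h2 := continuous_ee
    fun_prop
  rw [intervalIntegral.integral_sub, intervalIntegral.integral_const_mul, h1, h2]
  · have hMc : (M : ℂ) ≠ 0 := by exact_mod_cast hM0.ne'
    push_cast
    field_simp
    ring
  · exact (continuous_const.mul (hc _)).intervalIntegrable _ _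
  · exact (hc _).intervalIntegrable _ _

lemma W_int (M : ℕ) (hM : 1 ≤ M) (t : ℝ) :
    ∫ s in (0 : ℝ)..(2 * Real.pi), W M ((t - s) / (2 * Real.pi)) = 6 * Real.pi := by
  have key : ∀ L : ℕ, 1 ≤ L →
      ∫ s in (0 : ℝ)..(2 * Real.pi), fej L ((t - s) / (2 * Real.pi)) = 2 * Real.pi := by
    intro L hL
    have h := fej_coef L hL 0 (by simp) t
    have hL0 : (L : ℂ) ≠ 0 := by
      have : (0 : ℝ) < L := by exact_mod_cast hL
      exact_mod_cast this.ne'
    simp only [Int.cast_zero, zero_mul, ee_zero, one_mul, mul_one, abs_zero, sub_zero] at h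
    rw [intervalIntegral.integral_ofReal] at h
    have h2 : ((2 * Real.pi * ((L : ℝ) / L) : ℝ) : ℂ) = ((2 * Real.pi : ℝ) : ℂ) := by
      push_cast
      field_simp
    rw [h2] at h
    exact_mod_cast h
  have hc : ∀ L : ℕ, Continuous fun s : ℝ => fej L ((t - s) / (2 * Real.pi)) := by
    intro L
    have h1 := continuous_fej L
    fun_prop
  unfold W
  rw [intervalIntegral.integral_add, intervalIntegral.integral_const_mul, key M hM,
    key (2 * M) (by omega)]
  · ring
  · exact (continuous_const.mul (hc _)).intervalIntegrable _ _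
  · exact (hc _).intervalIntegrable _ _

/-- Jensen with weights. -/
lemma jensen (p : ℝ) (hp : 1 ≤ p) (f w : ℝ → ℝ) (hf : Continuous f) (hw : Continuous w)
    (hf0 : ∀ s, 0 ≤ f s) (hw0 : ∀ s, 0 ≤ w s) (c : ℝ) (hc : 0 < c)
    (hwc : ∫ s in (0 : ℝ)..(2 * Real.pi), w s = c) :
    (c⁻¹ * ∫ s in (0 : ℝ)..(2 * Real.pi), f s * w s) ^ p ≤
      c⁻¹ * ∫ s in (0 : ℝ)..(2 * Real.pi), f s ^ p * w s := by
  set A := c⁻¹ * ∫ s in (0 : ℝ)..(2 * Real.pi), f s * w s with hA
  have h2pi : (0 : ℝ) ≤ 2 * Real.pi := by positivity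
  have hA0 : 0 ≤ A := by
    rw [hA]
    apply mul_nonneg (by positivity)
    exact intervalIntegral.integral_nonneg h2pi (fun s _ => mul_nonneg (hf0 s) (hw0 s))
  have hcp : Continuous fun s => f s ^ p * w s :=
    (hf.rpow_const (fun s => Or.inr (by linarith))).mul hw
  rcases hA0.eq_or_lt with h0 | h0
  · rw [← h0, Real.zero_rpow (by linarith)]
    apply mul_nonneg (by positivity)
    exact intervalIntegral.integral_nonneg h2pi
      (fun s _ => mul_nonneg (Real.rpow_nonneg (hf0 s) _) (hw0 s))
  · have key : ∀ s, (A ^ p + p * A ^ (p - 1) * (f s - A)) * w s ≤ f s ^ p * w s := by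
      intro s
      apply mul_le_mul_of_nonneg_right _ (hw0 s)
      have h1 := one_add_mul_self_le_rpow_one_add (s := f s / A - 1)
        (by have : 0 ≤ f s / A := by positivity [hf0 s]
            linarith) hp
      have h2 : (1 + (f s / A - 1)) ^ p = f s ^ p / A ^ p := by
        rw [← Real.div_rpow (hf0 s) h0.le]
        congr 1
        ring
      rw [h2, le_div_iff₀ (by positivity)] at h1
      have h3 : A ^ (p - 1) = A ^ p / A := by
        rw [Real.rpow_sub h0, Real.rpow_one]
      rw [h3]
      have h4 : (1 + p * (f s / A - 1)) * A ^ p = A ^ p + p * (A ^ p / A) * (f s - A) := by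
        field_simp
      linarith
    have hint : ∫ s in (0 : ℝ)..(2 * Real.pi), (A ^ p + p * A ^ (p - 1) * (f s - A)) * w s ≤
        ∫ s in (0 : ℝ)..(2 * Real.pi), f s ^ p * w s := by
      apply intervalIntegral.integral_mono_on h2pi _ (hcp.intervalIntegrable _ _)
        (fun s _ => key s)
      apply Continuous.intervalIntegrable
      fun_prop
    have heq : ∫ s in (0 : ℝ)..(2 * Real.pi), (A ^ p + p * A ^ (p - 1) * (f s - A)) * w s =
        A ^ p * c := by
      have e1 : ∀ s, (A ^ p + p * A ^ (p - 1) * (f s - A)) * w s =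
          (A ^ p - p * A ^ (p - 1) * A) * w s + p * A ^ (p - 1) * (f s * w s) := by
        intro s
        ring
      simp_rw [e1]
      rw [intervalIntegral.integral_add, intervalIntegral.integral_const_mul,
        intervalIntegral.integral_const_mul, hwc]
      · have h5 : ∫ s in (0 : ℝ)..(2 * Real.pi), f s * w s = c * A := by
          rw [hA]
          field_simp
        rw [h5]
        ring
      · exact (continuous_const.mul hw).intervalIntegrable _ _
      · exact (continuous_const.mul (hf.mul hw)).intervalIntegrable _ _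
    rw [heq] at hint
    rw [inv_mul_eq_div, le_div_iff₀ hc]
    exact hint

end Samp49

open Samp49

/-- Sampling of a trigonometric polynomial. -/
theorem samp (p : ℝ) (hp : 1 ≤ p) : ∃ C : ℝ, 0 < C ∧ ∀ (M P : ℕ) (ι : Type) (S : Finset ι)
    (k : ι → ℤ) (c : ι → ℂ) (u : ℝ), 1 ≤ M → M ≤ P → (∀ s ∈ S, |k s| ≤ M) →
    ∑ i ∈ range P, ‖∑ s ∈ S, c s * Complex.exp
      ((((k s : ℝ) * ((2 * Real.pi * i + u) / P) : ℝ) : ℂ) * Complex.I)‖ ^ p ≤
      C * P * ∫ t in (0 : ℝ)..(2 * Real.pi),
        ‖∑ s ∈ S, c s * Complex.exp ((((k s : ℝ) * t : ℝ) : ℂ) * Complex.I)‖ ^ p := by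
  refine ⟨3 ^ p * 80, by positivity, ?_⟩
  intro M P ι S k c u hM hMP hk
  have hP : 1 ≤ P := le_trans hM hMP
  have hP0 : (0 : ℝ) < P := by exact_mod_cast hP
  have hM0 : (0 : ℝ) < M := by exact_mod_cast hM
  have hMPr : (M : ℝ) ≤ P := by exact_mod_cast hMP
  have hpi := Real.pi_pos
  set g : ℝ → ℂ := fun t => ∑ s ∈ S, c s * Complex.exp ((((k s : ℝ) * t : ℝ) : ℂ) * Complex.I)
    with hg
  have hgc : Continuous g := by
    rw [hg]
    fun_prop
  have hee : ∀ (n : ℤ) (t : ℝ), Complex.exp ((((n : ℝ) * t : ℝ) : ℂ) * Complex.I) =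
      ee ((n : ℝ) * (t / (2 * Real.pi))) := by
    intro n t
    unfold ee
    congr 2
    congr 1
    field_simp
  have hrep : ∀ t : ℝ, ((2 * Real.pi : ℝ) : ℂ) * g t = ∫ s in (0 : ℝ)..(2 * Real.pi), g s *
      ((V M ((t - s) / (2 * Real.pi)) : ℝ) : ℂ) := by
    intro t
    have e1 : ∀ s : ℝ, g s * ((V M ((t - s) / (2 * Real.pi)) : ℝ) : ℂ) =
        ∑ x ∈ S, c x * (ee ((k x : ℝ) * (s / (2 * Real.pi))) *
          ((V M ((t - s) / (2 * Real.pi)) : ℝ) : ℂ)) := by
      intro s
      rw [hg]
      simp only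
      rw [Finset.sum_mul]
      apply Finset.sum_congr rfl
      intro x _
      rw [hee]
      ring
    simp_rw [e1]
    rw [intervalIntegral.integral_finsetSum]
    · rw [hg]
      simp only
      rw [Finset.mul_sum]
      apply Finset.sum_congr rfl
      intro x hx
      rw [intervalIntegral.integral_const_mul, V_coef M hM (k x) (hk x hx) t, hee]
      ring
    · intro x _
      apply Continuous.intervalIntegrable
      have h1 := continuous_V M
      have h2 := Pool.Agent.Helper95.AS.continuous_ee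
      fun_prop
  have hpt : ∀ t : ℝ, ‖g t‖ ^ p ≤ 3 ^ p * (6 * Real.pi)⁻¹ * ∫ s in (0 : ℝ)..(2 * Real.pi),
      ‖g s‖ ^ p * W M ((t - s) / (2 * Real.pi)) := by
    intro t
    have hWc : Continuous fun s : ℝ => W M ((t - s) / (2 * Real.pi)) := by
      have := continuous_W M
      fun_prop
    have hJ := jensen p hp (fun s => ‖g s‖) (fun s => W M ((t - s) / (2 * Real.pi))) hgc.norm
      hWc (fun s => norm_nonneg _) (fun s => W_nonneg _ _) (6 * Real.pi) (by positivity)
      (W_int M hM t)
    have h1 : ‖g t‖ ≤ 3 * ((6 * Real.pi)⁻¹ * ∫ s in (0 : ℝ)..(2 * Real.pi),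
        ‖g s‖ * W M ((t - s) / (2 * Real.pi))) := by
      have h2 : ‖((2 * Real.pi : ℝ) : ℂ) * g t‖ ≤ ∫ s in (0 : ℝ)..(2 * Real.pi),
          ‖g s‖ * W M ((t - s) / (2 * Real.pi)) := by
        rw [hrep t]
        refine le_trans (intervalIntegral.norm_integral_le_integral_norm (by positivity)) ?_
        apply intervalIntegral.integral_mono_on (by positivity)
        · apply Continuous.intervalIntegrable
          have h3 := continuous_V M
          fun_prop
        · exact (hgc.norm.mul hWc).intervalIntegrable _ _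
        · intro s _
          rw [norm_mul, Complex.norm_real, Real.norm_eq_abs]
          exact mul_le_mul_of_nonneg_left (abs_V_le _ _) (norm_nonneg _)
      rw [norm_mul, Complex.norm_real, Real.norm_eq_abs, abs_of_pos (by positivity)] at h2
      have h3 : 3 * ((6 * Real.pi)⁻¹ * ∫ s in (0 : ℝ)..(2 * Real.pi),
        ‖g s‖ * W M ((t - s) / (2 * Real.pi))) = (∫ s in (0 : ℝ)..(2 * Real.pi),
        ‖g s‖ * W M ((t - s) / (2 * Real.pi))) / (2 * Real.pi) := by
        field_simp
        ring
      rw [h3, le_div_iff₀ (by positivity)]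
      linarith
    calc ‖g t‖ ^ p ≤ (3 * ((6 * Real.pi)⁻¹ * ∫ s in (0 : ℝ)..(2 * Real.pi),
        ‖g s‖ * W M ((t - s) / (2 * Real.pi)))) ^ p :=
          Real.rpow_le_rpow (norm_nonneg _) h1 (by linarith)
      _ = 3 ^ p * ((6 * Real.pi)⁻¹ * ∫ s in (0 : ℝ)..(2 * Real.pi),
        ‖g s‖ * W M ((t - s) / (2 * Real.pi))) ^ p := by
          apply Real.mul_rpow (by norm_num)
          apply mul_nonneg (by positivity)
          exact intervalIntegral.integral_nonneg (by positivity)
            (fun s _ => mul_nonneg (norm_nonneg _) (W_nonneg _ _))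
      _ ≤ 3 ^ p * ((6 * Real.pi)⁻¹ * ∫ s in (0 : ℝ)..(2 * Real.pi),
        ‖g s‖ ^ p * W M ((t - s) / (2 * Real.pi))) :=
          mul_le_mul_of_nonneg_left hJ (by positivity)
      _ = _ := by ring
  have hgpc : Continuous fun s => ‖g s‖ ^ p :=
    hgc.norm.rpow_const (fun s => Or.inr (by linarith))
  have hsumW : ∀ s : ℝ, ∑ i ∈ range P, W M (((2 * Real.pi * i + u) / P - s) / (2 * Real.pi)) ≤
      80 * P := by
    intro s
    have hspace := Pool.Agent.Helper70.AS.space.space Pool.Agent.Helper95.AS.s_fej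
    have key : ∀ L : ℕ, 1 ≤ L →
        ∑ i ∈ range P, fej L (((2 * Real.pi * i + u) / P - s) / (2 * Real.pi)) ≤
          10 * (L + 1 / (1 / (P : ℝ))) := by
      intro L hL
      apply hspace ℕ (range P) (fun i : ℕ => ((2 * Real.pi * i + u) / P - s) / (2 * Real.pi))
        (1 / (P : ℝ)) L (by positivity) hL
      intro a ha b hb hab m
      rw [Finset.mem_range] at ha hb
      have h1 : ((2 * Real.pi * a + u) / P - s) / (2 * Real.pi) -
          ((2 * Real.pi * b + u) / P - s) / (2 * Real.pi) - m =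
          (((a : ℤ) - b - m * P : ℤ) : ℝ) / P := by
        push_cast
        field_simp
        ring
      rw [h1, abs_div, abs_of_pos hP0]
      apply div_le_div_of_nonneg_right _ hP0.le
      rw [← Int.cast_abs]
      have h2 : (1 : ℤ) ≤ |(a : ℤ) - b - m * P| := by
        apply Int.one_le_abs
        intro h3
        have h4 : (a : ℤ) - b = m * P := by linarith
        have h5 : |(a : ℤ) - b| < P := by
          rw [abs_lt]
          constructor <;> omega
        rw [h4, abs_mul, abs_of_nonneg (by positivity : (0 : ℤ) ≤ (P : ℤ))] at h5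
        have h6 : |m| < 1 := by
          by_contra h7
          push Not at h7
          nlinarith
        have h7 : m = 0 := by
          rw [abs_lt] at h6
          omega
        rw [h7, zero_mul] at h4
        exact hab (by omega)
      exact_mod_cast h2
    have h1 := key M hM
    have h2 := key (2 * M) (by omega)
    rw [one_div_one_div] at h1 h2
    unfold W
    rw [Finset.sum_add_distrib, ← Finset.mul_sum]
    push_cast at h2
    linarith
  calc ∑ i ∈ range P, ‖g ((2 * Real.pi * i + u) / P)‖ ^ p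
      ≤ ∑ i ∈ range P, 3 ^ p * (6 * Real.pi)⁻¹ * ∫ s in (0 : ℝ)..(2 * Real.pi),
        ‖g s‖ ^ p * W M (((2 * Real.pi * i + u) / P - s) / (2 * Real.pi)) :=
        Finset.sum_le_sum (fun i _ => hpt _)
    _ = 3 ^ p * (6 * Real.pi)⁻¹ * ∫ s in (0 : ℝ)..(2 * Real.pi),
        ‖g s‖ ^ p * ∑ i ∈ range P, W M (((2 * Real.pi * i + u) / P - s) / (2 * Real.pi)) := by
        rw [← Finset.mul_sum, ← intervalIntegral.integral_finsetSum]
        · congr 2
          ext s
          rw [Finset.mul_sum]
        · intro i _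
          apply Continuous.intervalIntegrable
          have := continuous_W M
          fun_prop
    _ ≤ 3 ^ p * (6 * Real.pi)⁻¹ * ∫ s in (0 : ℝ)..(2 * Real.pi), ‖g s‖ ^ p * (80 * P) := by
        apply mul_le_mul_of_nonneg_left _ (by positivity)
        apply intervalIntegral.integral_mono_on (by positivity)
        · apply Continuous.intervalIntegrable
          have := continuous_W M
          fun_prop
        · exact (hgpc.mul continuous_const).intervalIntegrable _ _
        · intro s _
          exact mul_le_mul_of_nonneg_left (hsumW s) (by positivity)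
    _ = 3 ^ p * 80 * (6 * Real.pi)⁻¹ * P * ∫ s in (0 : ℝ)..(2 * Real.pi), ‖g s‖ ^ p := by
        rw [intervalIntegral.integral_mul_const]
        ring
    _ ≤ 3 ^ p * 80 * P * ∫ s in (0 : ℝ)..(2 * Real.pi), ‖g s‖ ^ p := by
        apply mul_le_mul_of_nonneg_right
        · apply mul_le_mul_of_nonneg_right _ hP0.le
          have h1 : (6 * Real.pi)⁻¹ ≤ 1 := by
            apply inv_le_one_of_one_le₀
            have := Real.pi_gt_three
            linarith
          have h2 : (0 : ℝ) ≤ 3 ^ p * 80 := by positivity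
          nlinarith
        · exact intervalIntegral.integral_nonneg (by positivity) (fun s _ => by positivity)

end Stx
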