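import Pool.Agent.Helper49.Stx.Shift
import Pool.Agent.Helper49.Stx.Samp

/-!
# MP_65a63f_X, part of module Y4: the bound on a line
-/

set_option autoImplicit false

namespace Stx

open Finset MeasureTheory Pool.Agent.Helper64.AS

namespace Samp49

lemma line_abs (φ : ℝ → ℝ → ℝ) (hφ : Continuous (Function.uncurry φ))
    (hper : ∀ (t u : ℝ) (k : ℤ), φ t (u + 2 * Real.pi * k) = φ t u) (C : ℝ) (P : ℕ) (s : ℤ)
    (hP : 1 ≤ P)
    (hs : ∀ u : ℝ, ∑ i ∈ range P, φ ((2 * Real.pi * i + u) / P) ((s : ℝ) * u) ≤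
      C * P * ∫ t in (0 : ℝ)..(2 * Real.pi), φ t ((s : ℝ) * u)) :
    ∫ t in (0 : ℝ)..(2 * Real.pi), φ t ((s : ℝ) * (P * t)) ≤
      C * ∫ u in (0 : ℝ)..(2 * Real.pi), ∫ t in (0 : ℝ)..(2 * Real.pi), φ t ((s : ℝ) * u) := by
  have hP0 : (0 : ℝ) < P := by exact_mod_cast hP
  have hc2 : ∀ f g : ℝ → ℝ, Continuous f → Continuous g → Continuous (fun t => φ (f t) (g t)) :=
    fun f g hf hg => hφ.comp (hf.prodMk hg)
  have hψc : Continuous (fun t => φ t ((s : ℝ) * (P * t))) :=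
    hc2 _ _ continuous_id (by fun_prop)
  have hci : ∀ i : ℕ, Continuous (fun u => φ ((2 * Real.pi * i + u) / P) ((s : ℝ) * u)) :=
    fun i => hc2 _ _ (by fun_prop) (by fun_prop)
  have h1 : ∫ t in (0 : ℝ)..(2 * Real.pi), φ t ((s : ℝ) * (P * t)) =
      ∑ i ∈ range P, ∫ t in (2 * Real.pi * (i : ℕ) / P)..(2 * Real.pi * ((i + 1 : ℕ) : ℝ) / P),
        φ t ((s : ℝ) * (P * t)) := by
    have h := intervalIntegral.sum_integral_adjacent_intervals
      (f := fun t => φ t ((s : ℝ) * (P * t))) (μ := volume) (n := P)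
      (a := fun i : ℕ => 2 * Real.pi * (i : ℝ) / P) (fun i _ => hψc.intervalIntegrable _ _)
    rw [h]
    congr 1
    · simp
    · field_simp
  have h2 : ∀ i ∈ range P,
      ∫ t in (2 * Real.pi * (i : ℕ) / P)..(2 * Real.pi * ((i + 1 : ℕ) : ℝ) / P),
        φ t ((s : ℝ) * (P * t)) =
      (P : ℝ)⁻¹ * ∫ u in (0 : ℝ)..(2 * Real.pi), φ ((2 * Real.pi * i + u) / P) ((s : ℝ) * u) := by
    intro i _
    have h := intervalIntegral.inv_smul_integral_comp_add_div (a := 0) (b := 2 * Real.pi)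
      (f := fun t => φ t ((s : ℝ) * (P * t))) (P : ℝ) (2 * Real.pi * (i : ℝ) / P)
    rw [smul_eq_mul] at h
    have e1 : 2 * Real.pi * (i : ℝ) / P + 0 / P = 2 * Real.pi * (i : ℝ) / P := by simp
    have e2 : 2 * Real.pi * (i : ℝ) / P + 2 * Real.pi / P =
        2 * Real.pi * ((i + 1 : ℕ) : ℝ) / P := by
      push_cast
      ring
    rw [e1, e2] at h
    rw [← h]
    congr 1
    apply intervalIntegral.integral_congr
    intro u _
    simp only
    have e3 : 2 * Real.pi * (i : ℝ) / P + u / P = (2 * Real.pi * i + u) / P := by ring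
    rw [e3]
    have e4 : (s : ℝ) * (P * ((2 * Real.pi * i + u) / P)) =
        (s : ℝ) * u + 2 * Real.pi * ((s * (i : ℤ) : ℤ) : ℝ) := by
      push_cast
      field_simp
      ring
    rw [e4, hper]
  rw [h1, Finset.sum_congr rfl h2, ← Finset.mul_sum, ← intervalIntegral.integral_finsetSum
    (fun i _ => (hci i).intervalIntegrable _ _)]
  have h3 : ∫ u in (0 : ℝ)..(2 * Real.pi), ∑ i ∈ range P,
        φ ((2 * Real.pi * i + u) / P) ((s : ℝ) * u) ≤
      ∫ u in (0 : ℝ)..(2 * Real.pi), C * P * ∫ t in (0 : ℝ)..(2 * Real.pi),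
        φ t ((s : ℝ) * u) := by
    apply intervalIntegral.integral_mono_on (by positivity)
    · exact (continuous_finsetSum _ (fun i _ => hci i)).intervalIntegrable _ _
    · apply Continuous.intervalIntegrable
      apply Continuous.mul continuous_const
      apply intervalIntegral.continuous_parametric_intervalIntegral_of_continuous'
      exact hφ.comp (continuous_snd.prodMk (continuous_const.mul continuous_fst))
    · intro u _
      exact hs u
  rw [intervalIntegral.integral_const_mul] at h3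
  calc (P : ℝ)⁻¹ * ∫ u in (0 : ℝ)..(2 * Real.pi), ∑ i ∈ range P,
        φ ((2 * Real.pi * i + u) / P) ((s : ℝ) * u)
      ≤ (P : ℝ)⁻¹ * (C * P * ∫ u in (0 : ℝ)..(2 * Real.pi), ∫ t in (0 : ℝ)..(2 * Real.pi),
        φ t ((s : ℝ) * u)) := mul_le_mul_of_nonneg_left h3 (by positivity)
    _ = _ := by
        field_simp

lemma Hs_eq {r : ℕ} (S : Finset (ℤ × (Fin r → ℤ))) (a : ℤ × (Fin r → ℤ) → ℂ) (v : ℝ)
    (x : Fin r → ℝ) (t : ℝ) : Hs S a t v x =
      ∑ η ∈ S, (a η * Complex.exp (((∑ l, x l * η.2 l - v * η.1 : ℝ) : ℂ) * Complex.I)) *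
        Complex.exp (((((-(η.1 ^ 2 + ∑ l, (η.2 l) ^ 2) : ℤ) : ℝ) * t : ℝ) : ℂ) * Complex.I) := by
  unfold Hs
  apply Finset.sum_congr rfl
  intro η _
  rw [mul_assoc, ← Complex.exp_add, ← add_mul, ← Complex.ofReal_add]
  congr 4
  push_cast
  ring

lemma line_bound (p : ℝ) (hp : 1 ≤ p) : ∃ C : ℝ, 0 < C ∧ ∀ (r : ℕ)
    (S : Finset (ℤ × (Fin r → ℤ))) (a : ℤ × (Fin r → ℤ) → ℂ) (M P : ℕ) (s : ℤ) (x : Fin r → ℝ),
    1 ≤ M → M ≤ P → (∀ η ∈ S, η.1 ^ 2 + ∑ l, (η.2 l) ^ 2 ≤ (M : ℤ)) →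
    ∫ t in (0 : ℝ)..(2 * Real.pi), ‖Hs S a t ((s : ℝ) * (P * t)) x‖ ^ p ≤
      C * ∫ u in (0 : ℝ)..(2 * Real.pi), ∫ t in (0 : ℝ)..(2 * Real.pi),
        ‖Hs S a t ((s : ℝ) * u) x‖ ^ p := by
  obtain ⟨C, hC, hsamp⟩ := samp p hp
  refine ⟨C, hC, ?_⟩
  intro r S a M P s x hM hMP hS
  apply line_abs (fun t u => ‖Hs S a t u x‖ ^ p) _ _ C P s (le_trans hM hMP)
  · intro u
    have h := hsamp M P _ S (fun η => -(η.1 ^ 2 + ∑ l, (η.2 l) ^ 2))
      (fun η => a η * Complex.exp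
        (((∑ l, x l * η.2 l - (s : ℝ) * u * η.1 : ℝ) : ℂ) * Complex.I)) u hM hMP (by
        intro η hη
        rw [abs_neg, abs_of_nonneg (by positivity)]
        exact hS η hη)
    simp only [Hs_eq]
    exact h
  · apply Continuous.rpow_const
    · exact ((continuous_Hs S a).comp (continuous_fst.prodMk
        (continuous_snd.prodMk continuous_const))).norm
    · intro z
      exact Or.inr (by linarith)
  · intro t u k
    rw [Hs_shift_u]

end Samp49

end Stx
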