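import Pool.Agent.Helper49.AS.Pars

/-!
# MP_65a63f_X, part of module Y4: translation invariance, trigonometric sums
-/

set_option autoImplicit false

namespace Stx

open Finset MeasureTheory Pool.Agent.Helper64.AS
open scoped Pointwise

namespace Samp49

/-- Translation invariance for functions of period 1. -/
lemma unit_shift {r : ℕ} (g : (Fin r → ℝ) → ℝ)
    (hper : ∀ (x : Fin r → ℝ) (k : Fin r → ℤ), g (fun l => x l + k l) = g x) (c : Fin r → ℝ) :
    ∫ x in Set.Icc (0 : Fin r → ℝ) (fun _ => 1), g (x + c) =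
      ∫ x in Set.Icc (0 : Fin r → ℝ) (fun _ => 1), g x := by
  set f : UnitAddTorus (Fin r) → ℝ := fun y =>
    g (fun i => ((AddCircle.equivIco 1 0 (y i) : Set.Ico (0 : ℝ) (0 + 1)) : ℝ)) with hf
  have hfg : ∀ x : Fin r → ℝ, f (fun i => (x i : UnitAddCircle)) = g x := by
    intro x
    rw [hf]
    simp only
    have h1 : ∀ i, ((AddCircle.equivIco 1 0 ((x i : ℝ) : UnitAddCircle) :
        Set.Ico (0 : ℝ) (0 + 1)) : ℝ) = x i + ((-⌊x i⌋ : ℤ) : ℝ) := by
      intro i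
      rw [AddCircle.coe_equivIco_mk_apply]
      push_cast
      rw [div_one, mul_one, Int.fract]
      ring
    simp_rw [h1]
    exact hper x (fun i => -⌊x i⌋)
  have key : ∀ a : Fin r → ℝ, ∫ x in {x : Fin r → ℝ | ∀ i, x i ∈ Set.Ioc (a i) (a i + 1)},
      f (fun i => (x i : UnitAddCircle)) = ∫ x in Set.Icc a (fun i => a i + 1), g x := by
    intro a
    have h1 : {x : Fin r → ℝ | ∀ i, x i ∈ Set.Ioc (a i) (a i + 1)} =
        Set.pi Set.univ (fun i => Set.Ioc (a i) (a i + 1)) := by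
      ext x
      simp
    rw [h1]
    simp_rw [hfg]
    exact setIntegral_congr_set Measure.univ_pi_Ioc_ae_eq_Icc
  have h0 := key 0
  have hc := key c
  have h0c := (UnitAddTorus.integral_preimage f 0).symm.trans (UnitAddTorus.integral_preimage f c)
  rw [h0, hc] at h0c
  simp only [Pi.zero_apply, zero_add] at h0c
  rw [h0c]
  have h2 := (measurePreserving_add_right (volume : Measure (Fin r → ℝ)) c).setIntegral_preimage_emb
    (measurableEmbedding_addRight c) g (Set.Icc c (fun i => c i + 1))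
  rw [← h2]
  congr 2
  ext x
  simp only [Set.mem_preimage, Set.mem_Icc, Pi.le_def, Pi.add_apply, Pi.zero_apply]
  constructor
  · rintro ⟨h3, h4⟩
    exact ⟨fun i => by linarith [h3 i], fun i => by linarith [h4 i]⟩
  · rintro ⟨h3, h4⟩
    exact ⟨fun i => by linarith [h3 i], fun i => by linarith [h4 i]⟩

lemma smul_Icc_one {r : ℕ} (R : ℝ) (hR : 0 < R) :
    R • Set.Icc (0 : Fin r → ℝ) (fun _ => 1) = Set.Icc (0 : Fin r → ℝ) (fun _ => R) := by
  ext x
  rw [Set.mem_smul_set_iff_inv_smul_mem₀ hR.ne']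
  simp only [Set.mem_Icc, Pi.le_def, Pi.zero_apply, Pi.smul_apply, smul_eq_mul]
  constructor
  · rintro ⟨h1, h2⟩
    refine ⟨fun i => ?_, fun i => ?_⟩
    · have := h1 i
      rw [inv_mul_eq_div] at this
      by_contra h3
      push Not at h3
      have : x i / R < 0 := div_neg_of_neg_of_pos h3 hR
      linarith
    · have := h2 i
      rw [inv_mul_eq_div, div_le_one hR] at this
      exact this
  · rintro ⟨h1, h2⟩
    refine ⟨fun i => ?_, fun i => ?_⟩
    · have := h1 i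
      positivity
    · rw [inv_mul_eq_div, div_le_one hR]
      exact h2 i

/-- Translation invariance for functions of period `2π`. -/
lemma box_shift {r : ℕ} (h : (Fin r → ℝ) → ℝ)
    (hper : ∀ (x : Fin r → ℝ) (k : Fin r → ℤ), h (fun l => x l + 2 * Real.pi * k l) = h x)
    (c : Fin r → ℝ) :
    ∫ x in Set.Icc (0 : Fin r → ℝ) (fun _ => 2 * Real.pi), h (x + c) =
      ∫ x in Set.Icc (0 : Fin r → ℝ) (fun _ => 2 * Real.pi), h x := by
  have hR : (0 : ℝ) < 2 * Real.pi := by positivity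
  have key : ∀ F : (Fin r → ℝ) → ℝ,
      ∫ x in Set.Icc (0 : Fin r → ℝ) (fun _ => 2 * Real.pi), F x =
      (2 * Real.pi) ^ (Module.finrank ℝ (Fin r → ℝ)) *
        ∫ x in Set.Icc (0 : Fin r → ℝ) (fun _ => 1), F ((2 * Real.pi) • x) := by
    intro F
    rw [Measure.setIntegral_comp_smul_of_pos volume F _ hR, smul_Icc_one _ hR, smul_eq_mul,
      mul_inv_cancel_left₀ (pow_pos hR _).ne']
  rw [key, key]
  congr 1
  have h1 := unit_shift (fun x => h ((2 * Real.pi) • x)) (by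
    intro x k
    have := hper ((2 * Real.pi) • x) k
    rw [← this]
    congr 1
    ext l
    simp only [Pi.smul_apply, smul_eq_mul]
    ring) ((2 * Real.pi)⁻¹ • c)
  rw [← h1]
  congr 1
  ext x
  rw [smul_add, smul_smul, mul_inv_cancel₀ hR.ne', one_smul]

/-- The sum with the variable `u` dual to the frozen frequency. -/
noncomputable def Hs {r : ℕ} (S : Finset (ℤ × (Fin r → ℤ))) (a : ℤ × (Fin r → ℤ) → ℂ) (t u : ℝ)
    (x : Fin r → ℝ) : ℂ :=
  ∑ η ∈ S, a η * Complex.exp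
    (((∑ l, x l * η.2 l - u * η.1 - t * ((η.1 : ℝ) ^ 2 + ∑ l, (η.2 l : ℝ) ^ 2) : ℝ) : ℂ) *
      Complex.I)

lemma continuous_Hs {r : ℕ} (S : Finset (ℤ × (Fin r → ℤ))) (a : ℤ × (Fin r → ℤ) → ℂ) :
    Continuous (fun z : ℝ × ℝ × (Fin r → ℝ) => Hs S a z.1 z.2.1 z.2.2) := by
  unfold Hs
  fun_prop

lemma FF_phase {r : ℕ} (S : Finset (ℤ × (Fin r → ℤ))) (a : ℤ × (Fin r → ℤ) → ℂ) (t u : ℝ)
    (x : Fin r → ℝ) :
    FF r S (fun η => a η * Complex.exp (((-u * η.1 : ℝ) : ℂ) * Complex.I)) t x = Hs S a t u x := by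
  unfold FF Hs
  apply Finset.sum_congr rfl
  intro η _
  rw [mul_assoc, ← Complex.exp_add]
  congr 2
  push_cast
  ring

lemma Hs_shift_x {r : ℕ} (S : Finset (ℤ × (Fin r → ℤ))) (a : ℤ × (Fin r → ℤ) → ℂ) (t u : ℝ)
    (x : Fin r → ℝ) (k : Fin r → ℤ) : Hs S a t u (fun l => x l + 2 * Real.pi * k l) =
      Hs S a t u x := by
  unfold Hs
  apply Finset.sum_congr rfl
  intro η _
  congr 1
  have h1 : (((∑ l, (x l + 2 * Real.pi * k l) * η.2 l - u * η.1 -
      t * ((η.1 : ℝ) ^ 2 + ∑ l, (η.2 l : ℝ) ^ 2) : ℝ) : ℂ) * Complex.I) =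
      (((∑ l, x l * η.2 l - u * η.1 - t * ((η.1 : ℝ) ^ 2 + ∑ l, (η.2 l : ℝ) ^ 2) : ℝ) : ℂ) *
      Complex.I) + ((∑ l, k l * η.2 l : ℤ) : ℂ) * (2 * Real.pi * Complex.I) := by
    have h2 : ∑ l, (x l + 2 * Real.pi * k l) * (η.2 l : ℝ) =
        ∑ l, x l * η.2 l + 2 * Real.pi * ∑ l, (k l : ℝ) * η.2 l := by
      rw [Finset.mul_sum, ← Finset.sum_add_distrib]
      apply Finset.sum_congr rfl
      intro l _
      ring
    rw [h2]
    push_cast
    ring
  rw [h1, Complex.exp_add, Complex.exp_int_mul_two_pi_mul_I, mul_one]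

lemma Hs_shift_u {r : ℕ} (S : Finset (ℤ × (Fin r → ℤ))) (a : ℤ × (Fin r → ℤ) → ℂ) (t u : ℝ)
    (x : Fin r → ℝ) (k : ℤ) : Hs S a t (u + 2 * Real.pi * k) x = Hs S a t u x := by
  unfold Hs
  apply Finset.sum_congr rfl
  intro η _
  congr 1
  have h1 : (((∑ l, x l * η.2 l - (u + 2 * Real.pi * k) * η.1 -
      t * ((η.1 : ℝ) ^ 2 + ∑ l, (η.2 l : ℝ) ^ 2) : ℝ) : ℂ) * Complex.I) =
      (((∑ l, x l * η.2 l - u * η.1 - t * ((η.1 : ℝ) ^ 2 + ∑ l, (η.2 l : ℝ) ^ 2) : ℝ) : ℂ) *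
      Complex.I) + ((-(k * η.1) : ℤ) : ℂ) * (2 * Real.pi * Complex.I) := by
    push_cast
    ring
  rw [h1, Complex.exp_add, Complex.exp_int_mul_two_pi_mul_I, mul_one]

end Samp49

end Stx
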