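import Pool.Agent.Helper49.AS.Pars

/-!
# MP_65a63f_X, module Y2: the `L²` bound on the cube
-/

set_option autoImplicit false

namespace Stx

open Finset MeasureTheory Pool.Agent.Helper64.AS

theorem l2_real (r : ℕ) (b : Fin (r + 1) → ℝ) (N : ℝ) (a : ℤ × (Fin r → ℤ) → ℂ) :
    ∫ z in cube r, ‖FF r (box r b N) a z.1 z.2‖ ^ 2 ≤
      2 * (2 * Real.pi) ^ (r + 1) * ∑ ξ ∈ box r b N, ‖a ξ‖ ^ 2 := by
  set S := box r b N with hS
  set S1 := S.filter (fun ξ => 0 ≤ ξ.1) with hS1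
  set S2 := S.filter (fun ξ => ¬ 0 ≤ ξ.1) with hS2
  have hc : ∀ T : Finset (ℤ × (Fin r → ℤ)), Continuous fun z : ℝ × (Fin r → ℝ) =>
      ‖FF r T a z.1 z.2‖ ^ 2 := fun T => (Pool.Agent.Helper49.AS.continuous_FF r T a).norm.pow 2
  have hsplit : ∀ z : ℝ × (Fin r → ℝ), FF r S a z.1 z.2 =
      FF r S1 a z.1 z.2 + FF r S2 a z.1 z.2 := by
    intro z
    unfold FF
    exact (Finset.sum_filter_add_sum_filter_not S (fun ξ => 0 ≤ ξ.1) _).symm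
  have hp : ∀ T : Finset (ℤ × (Fin r → ℤ)),
      (∀ p ∈ T, ∀ q ∈ T, p.1 ^ 2 = q.1 ^ 2 → p.1 = q.1) →
      ∫ z in cube r, ‖FF r T a z.1 z.2‖ ^ 2 = (2 * Real.pi) ^ (r + 1) * ∑ ξ ∈ T, ‖a ξ‖ ^ 2 := by
    intro T hT
    simp_rw [Pool.Agent.Helper49.AS.FF_eq]
    apply Pool.Agent.Helper49.AS.parseval r T (Pool.Agent.Helper49.AS.kf r) (fun ξ => ξ.2) a
    intro p hp q hq h1 h2
    apply Prod.ext _ h2
    apply hT p hp q hq
    unfold Pool.Agent.Helper49.AS.kf at h1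
    rw [h2] at h1
    linarith
  have h1 := hp S1 (by
    intro p hp q hq h
    rw [hS1, Finset.mem_filter] at hp hq
    exact (sq_eq_sq₀ hp.2 hq.2).mp h)
  have h2 := hp S2 (by
    intro p hp q hq h
    rw [hS2, Finset.mem_filter] at hp hq
    have h3 : (-p.1) ^ 2 = (-q.1) ^ 2 := by rw [neg_sq, neg_sq, h]
    have := (sq_eq_sq₀ (by omega) (by omega)).mp h3
    omega)
  have hsum : ∑ ξ ∈ S1, ‖a ξ‖ ^ 2 + ∑ ξ ∈ S2, ‖a ξ‖ ^ 2 = ∑ ξ ∈ S, ‖a ξ‖ ^ 2 :=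
    Finset.sum_filter_add_sum_filter_not S (fun ξ => 0 ≤ ξ.1) _
  have hI : ∀ T : Finset (ℤ × (Fin r → ℤ)),
      IntegrableOn (fun z : ℝ × (Fin r → ℝ) => ‖FF r T a z.1 z.2‖ ^ 2) (cube r) :=
    fun T => Pool.Agent.Helper49.AS.integrableOn_of_cont r _ (hc T)
  calc ∫ z in cube r, ‖FF r S a z.1 z.2‖ ^ 2
      ≤ ∫ z in cube r, (2 * ‖FF r S1 a z.1 z.2‖ ^ 2 + 2 * ‖FF r S2 a z.1 z.2‖ ^ 2) := by
        apply integral_mono (hI S) (((hI S1).const_mul 2).add ((hI S2).const_mul 2))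
        intro z
        change ‖FF r S a z.1 z.2‖ ^ 2 ≤ 2 * ‖FF r S1 a z.1 z.2‖ ^ 2 + 2 * ‖FF r S2 a z.1 z.2‖ ^ 2
        rw [hsplit z]
        have h3 := norm_add_le (FF r S1 a z.1 z.2) (FF r S2 a z.1 z.2)
        have h4 := norm_nonneg (FF r S1 a z.1 z.2 + FF r S2 a z.1 z.2)
        nlinarith [sq_nonneg (‖FF r S1 a z.1 z.2‖ - ‖FF r S2 a z.1 z.2‖)]
    _ = 2 * (2 * Real.pi) ^ (r + 1) * ∑ ξ ∈ S, ‖a ξ‖ ^ 2 := by
        rw [integral_add ((hI S1).const_mul 2) ((hI S2).const_mul 2), integral_const_mul,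
          integral_const_mul, h1, h2, ← hsum]
        ring

end Stx
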